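import Pool.Agent.H380.LT.Pat
import Pool.Graph.R_seed8.Y815.LT.Cpt
import Pool.Graph.R_seed8.Y815.LT.Loc
import Pool.Graph.R_seed8.Y917.LT.Pret
import Pool.Graph.R_seed8.Y290.LT.Sup
import Pool.Graph.R_seed8.Y122.LT.LowC
import Pool.Graph.R_seed8.Y814.LT.Low
import Pool.Graph.R_seed8.Y872.L.Mean
import Pool.Graph.R_seed8.Y474.LT.U
import Pool.Graph.R_seed8.Y642.LT.E3
import Pool.Graph.R_seed8.Y290.LT.D
import Pool.Graph.R_seed8.Y814.LT.F

/-!
# Finiteness of the threshold for triples of quadratic residues (E. Lehmer)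

For every pair `0 < a < b` that is not exceptional the threshold `Ω(a,b)` is finite.
-/

set_option autoImplicit false

namespace Pool.Agent.Results.MP_b311ff_nt.ThresholdFinite

/-- The integer `r` is a quadratic residue of `p`: it is not divisible by `p` and `r ≡ x² (mod p)`
is solvable. -/
def QuadRes (p : ℕ) (r : ℤ) : Prop := ¬ r ≡ 0 [ZMOD p] ∧ ∃ x : ℤ, r ≡ x ^ 2 [ZMOD p]

/-- The property of the positive integer `N` in the definition of `Ω(a,b)`: there is `p₀` such that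
for every prime `p > p₀` some `r` with `1 ≤ r ≤ N` makes `r`, `r + a`, `r + b` all quadratic
residues of `p`. -/
def Suffices (a b N : ℕ) : Prop :=
  0 < N ∧ ∃ p₀ : ℕ, ∀ p : ℕ, p.Prime → p₀ < p →
    ∃ r : ℤ, 1 ≤ r ∧ r ≤ N ∧ QuadRes p r ∧ QuadRes p (r + a) ∧ QuadRes p (r + b)

/-- The threshold `Ω(a,b)`: the least `N` with the property `Suffices a b N`, and `∞` if there is
none. -/
noncomputable def Omega (a b : ℕ) : ℕ∞ := sInf {n : ℕ∞ | ∃ N : ℕ, Suffices a b N ∧ n = N}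

/-- The exceptional pairs, by conditions on the unordered pairs of residues modulo `3`, `5`,
`7`. -/
def Exceptional (a b : ℕ) : Prop :=
  s(a % 3, b % 3) = s(1, 2) ∨
  (s(a % 5, b % 5) = s(1, 3) ∨ s(a % 5, b % 5) = s(2, 3) ∨ s(a % 5, b % 5) = s(2, 4)) ∨
  (s(a % 7, b % 7) = s(1, 5) ∨ s(a % 7, b % 7) = s(2, 3) ∨ s(a % 7, b % 7) = s(4, 6))

open Pool.Agent.Y872.L in
/-- the two forms of the exceptional pairs -/
theorem exc_iff (a b : ℕ) : Exc a b → Exceptional a b := by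
  intro h
  unfold Exc at h
  unfold Exceptional
  simp only [Sym2.eq_iff, Finset.mem_insert, Finset.mem_singleton, Prod.mk.injEq] at h ⊢
  rcases h with h | h | h
  · exact Or.inl h
  · refine Or.inr (Or.inl ?_)
    tauto
  · refine Or.inr (Or.inr ?_)
    tauto

open Pool.Agent.Y872.L in
theorem quadRes_of {p r : ℕ} (h : QRes p r) : QuadRes p (r : ℤ) := by
  obtain ⟨h1, x, hx⟩ := h
  refine ⟨?_, x, ?_⟩
  · intro h0
    apply h1
    rw [Int.modEq_zero_iff_dvd] at h0
    exact_mod_cast h0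
  · have h2 := (Int.natCast_modEq_iff (n := p)).2 hx
    push_cast at h2
    exact h2.symm

open Pool.Agent.Y872.L in
/-- no function without good triples exists -/
theorem main {f : ℕ → ℤ} (hf : CM f) {a b : ℕ} (ha : 0 < a) (hab : a < b)
    (hexc : ¬ Exceptional a b) : ∃ n : ℕ, 0 < n ∧ f n = 1 ∧ f (n + a) = 1 ∧ f (n + b) = 1 := by
  by_cases hP : NonPret f
  · obtain ⟨μ, hμ, hm⟩ := exists_mean f hf
      (Pool.Agent.Y814.LT.low Pool.Agent.Y290.LT.Sup.sup Pool.Agent.Y122.LT.lowc f hf hP)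
    exact Pool.Agent.Y814.LT.fin μ f hf hm
      (Pool.Agent.Y290.LT.D.c2_zero μ f hf
        (Pool.Agent.Y642.LT.ee_of_uu μ f hf (Pool.Agent.Y474.LT.uu_of_rr μ f hf hμ))) a b ha hab
  · unfold NonPret at hP
    push Not at hP
    obtain ⟨Q, hQ, χ, hχ, hpr⟩ := hP
    exact Pool.Agent.Y917.LT.pret (Pool.Agent.Y815.LT.loc Pool.Agent.H380.LT.pat) f hf Q hQ χ hχ
      hpr a b ha hab fun h => hexc (exc_iff a b h)

open Pool.Agent.Y872.L in
/-- **E. Lehmer's question, answered: yes.** For all integers `0 < a < b` such that `(a,b)` is not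
exceptional, `Ω(a,b) < ∞`. -/
theorem result : ∀ a b : ℕ, 0 < a → a < b → ¬ Exceptional a b → Omega a b < ⊤ := by
  intro a b ha hab hexc
  by_contra hcon
  have hno : ∀ N : ℕ, ¬ Suffices a b N := by
    intro N hN
    apply hcon
    exact lt_of_le_of_lt (sInf_le ⟨N, hN, rfl⟩) (ENat.natCast_lt_top N)
  obtain ⟨f, hf, hfn⟩ := Pool.Agent.Y815.LT.cpt a b (by
    intro N p₀
    have h1 := hno (N + 1)
    unfold Suffices at h1
    push Not at h1
    obtain ⟨p, hp, hpp, h2⟩ := h1 (Nat.succ_pos N) p₀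
    refine ⟨p, hp, hpp, fun r hr1 hrN hq => ?_⟩
    refine h2 (r : ℤ) (by exact_mod_cast hr1) (by push_cast; linarith [(by exact_mod_cast hrN : (r : ℤ) ≤ N)])
      (quadRes_of hq.1) ?_ ?_
    · exact_mod_cast quadRes_of hq.2.1
    · exact_mod_cast quadRes_of hq.2.2)
  obtain ⟨n, hn, h3⟩ := main hf ha hab hexc
  exact hfn n hn h3

end Pool.Agent.Results.MP_b311ff_nt.ThresholdFinite
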